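import Pool.Agent.helper85.L21.Orbit

set_option autoImplicit false

namespace Pool.Agent.Results.MP_c9bf3e_co.AbelianTwoOrbits

/-- The statement of the conjecture for all finite connected cubic graphs which have an abelian
group acting freely on the vertices, by automorphisms, with at most two orbits: every such graph
which is not isomorphic to the Petersen graph has a labelling with labels `0..7` in which adjacent
vertices differ by at least two and distinct vertices with a common neighbour get different
labels. -/
theorem result :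
    ∀ (V : Type) [Fintype V] [DecidableEq V] (G : SimpleGraph V) [DecidableRel G.Adj],
      G.Connected → G.IsRegularOfDegree 3 →
      (∃ (A : Type) (_ : AddCommGroup A) (_ : AddAction A V),
        (∀ (a : A) (v : V), a +ᵥ v = v → a = 0) ∧
        (∀ (a : A) (u v : V), G.Adj u v → G.Adj (a +ᵥ u) (a +ᵥ v)) ∧
        ∃ x y : V, ∀ w : V, ∃ a : A, w = a +ᵥ x ∨ w = a +ᵥ y) →
      ¬ Nonempty (G ≃g SimpleGraph.fromRel
          (fun s t : {s : Finset (Fin 5) // s.card = 2} => Disjoint s.1 t.1)) →
      ∃ f : V → ℕ, (∀ v, f v ≤ 7) ∧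
        (∀ u v, G.Adj u v → 2 ≤ |(f u : ℤ) - (f v : ℤ)|) ∧
        (∀ u v w, u ≠ v → G.Adj u w → G.Adj w v → f u ≠ f v) := by
  intro V _ _ G _ hconn hreg ⟨A, _, _, hfree, hadj, x, y, horb⟩ hP
  rcases Pool.Agent.helper85.L21.orbit_main G hconn hreg hfree hadj x y horb with ⟨f, hf⟩ | h
  · exact ⟨f, hf⟩
  · exact absurd h hP

end Pool.Agent.Results.MP_c9bf3e_co.AbelianTwoOrbits
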