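import Pool.Agent.helper28.CF.Main

/-!
# MP_c9bf3e_co: the Georges–Mauro conjecture for claw-free cubic graphs

Every finite graph with maximum degree at most three in which every vertex lies in a triangle has a
labelling with labels `0..7` in which adjacent vertices differ by at least two and distinct vertices
with a common neighbour get different labels.  A cubic graph has no induced claw if and only if
every vertex lies in a triangle, so this settles the conjecture for all claw-free cubic graphs.
-/

set_option autoImplicit false

namespace Pool.Agent.Results.MP_c9bf3e_co.ClawFree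

theorem result :
    ∀ (V : Type) [Fintype V] [DecidableEq V] (G : SimpleGraph V) [DecidableRel G.Adj],
      (∀ v, G.degree v ≤ 3) → (∀ v, ∃ a b, G.Adj v a ∧ G.Adj v b ∧ G.Adj a b) →
      ∃ f : V → ℕ, (∀ v, f v ≤ 7) ∧
        (∀ u v, G.Adj u v → 2 ≤ |(f u : ℤ) - (f v : ℤ)|) ∧
        (∀ u v w, u ≠ v → G.Adj u w → G.Adj w v → f u ≠ f v) := by
  intro V _ _ G _ hdeg htri
  have hG : Pool.Agent.helper28.CF.Good G := by
    refine ⟨fun v a b c d ha hb hc hd => ?_, htri⟩
    by_contra hne
    simp only [not_or] at hne
    obtain ⟨h1, h2, h3, h4, h5, h6⟩ := hne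
    have hsub : ({a, b, c, d} : Finset V) ⊆ G.neighborFinset v := by
      intro x hx
      simp only [Finset.mem_insert, Finset.mem_singleton] at hx
      rw [SimpleGraph.mem_neighborFinset]
      rcases hx with rfl | rfl | rfl | rfl
      · exact ha
      · exact hb
      · exact hc
      · exact hd
    have hcard : ({a, b, c, d} : Finset V).card = 4 := by
      rw [Finset.card_insert_of_notMem, Finset.card_insert_of_notMem,
        Finset.card_insert_of_notMem, Finset.card_singleton]
      · simpa using h6
      · simp only [Finset.mem_insert, Finset.mem_singleton, not_or]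
        exact ⟨h4, h5⟩
      · simp only [Finset.mem_insert, Finset.mem_singleton, not_or]
        exact ⟨h1, h2, h3⟩
    have := Finset.card_le_card hsub
    rw [hcard, SimpleGraph.card_neighborFinset_eq_degree] at this
    have := hdeg v
    omega
  obtain ⟨f, hf⟩ := Pool.Agent.helper28.CF.good_lab _ V G rfl hG
  refine ⟨f, hf.le, fun u v h => ?_, hf.two⟩
  have h2 := hf.adj u v h
  rcases h2 with h2 | h2
  · rw [abs_sub_comm, le_abs]
    left
    have : ((f u + 2 : ℕ) : ℤ) ≤ ((f v : ℕ) : ℤ) := by exact_mod_cast h2
    push_cast at this
    linarith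
  · rw [le_abs]
    left
    have : ((f v + 2 : ℕ) : ℤ) ≤ ((f u : ℕ) : ℤ) := by exact_mod_cast h2
    push_cast at this
    linarith

end Pool.Agent.Results.MP_c9bf3e_co.ClawFree
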