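import Pool.Agent.helper97.L9.Fin

/-!
# MP_c9bf3e_co: every graph of maximum degree at most three has span at most nine

Every finite graph with maximum degree at most three has a labelling with labels `0..9` in which
adjacent vertices differ by at least two and distinct vertices with a common neighbour get different
labels: `λ_{2,1}(G) ≤ 9 = Δ^2`, the case `Δ = 3` of the Griggs–Yeh conjecture.
-/

set_option autoImplicit false

namespace Pool.Agent.Results.MP_c9bf3e_co.SpanNine

theorem result :
    ∀ (V : Type) [Fintype V] [DecidableEq V] (G : SimpleGraph V) [DecidableRel G.Adj],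
      (∀ v, G.degree v ≤ 3) →
      ∃ f : V → ℕ, (∀ v, f v ≤ 9) ∧
        (∀ u v, G.Adj u v → 2 ≤ |(f u : ℤ) - (f v : ℤ)|) ∧
        (∀ u v w, u ≠ v → G.Adj u w → G.Adj w v → f u ≠ f v) :=
  Helper97.L9.concl (Helper97.L9.jLoc_of_Y Helper58.L9.Y.yAll) Helper97.L9.plusAll

end Pool.Agent.Results.MP_c9bf3e_co.SpanNine
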